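import Pool.Agent.Helper3_PPE.Stmts
import Pool.Agent.Helper65_PPZ.Der

/-!
# Squad PPE, module DER: the derivative of a polynomial in `x, z, θ`
-/

set_option autoImplicit false

universe u

namespace Pool.Agent.PPE.H65

open MvPolynomial PGH PPX PPZ

/-- DER -/
theorem der (K : ℕ) : DerStmt.{u} K := by
  intro k _ _ _ N₁ N₂ a b C Q hQ
  have hD : ∀ c : k, C.D (algebraMap k C.E c) = 0 := fun c => (C.ker _).2 ⟨c, rfl⟩
  have hx : ∀ i, C.x - algebraMap k C.E (a i) ≠ 0 := by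
    intro i h
    apply C.dx
    rw [sub_eq_zero.1 h]
    exact hD _
  have hz : ∀ j, C.z - algebraMap k C.E (b j) ≠ 0 := by
    intro i h
    apply C.dz
    rw [sub_eq_zero.1 h]
    exact hD _
  have hdz := C.dz
  have hdx := C.dx
  have hth : C.th * C.D C.z = C.D C.x := by
    unfold BC.th PPX.th
    field_simp
  have hth0 : C.th ≠ 0 := by
    unfold BC.th PPX.th
    exact div_ne_zero hdx hdz
  obtain ⟨S, hS⟩ : ∃ S, S = ∑ i, (C.x - algebraMap k C.E (a i))⁻¹ := ⟨_, rfl⟩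
  obtain ⟨T, hT⟩ : ∃ T, T = ∑ j, (C.z - algebraMap k C.E (b j))⁻¹ := ⟨_, rfl⟩
  have hla : C.D C.th = C.th * (C.la * C.D C.z + 2 * (C.D C.x * S - C.D C.z * T)) := by
    have h1 : C.la = (C.D C.th / C.th - 2 * (C.D C.x * S - C.D C.z * T)) / C.D C.z := by
      unfold BC.la PPX.la
      rw [hS, hT, Finset.mul_sum, Finset.mul_sum]
      simp only [div_eq_mul_inv]
      rfl
    rw [h1]
    field_simp
    ring
  have hch := PPZ.H65.chain C.D hD C.pt Q
  rw [Fin.sum_univ_four] at hch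
  have h3 : pderiv 3 Q = 0 := by
    apply pderiv_eq_zero_of_notMem_vars
    intro h
    exact (mem_vars_iff_degreeOf_ne_zero.1 h) hQ
  rw [h3, map_zero, zero_mul, add_zero] at hch
  have hf : aeval C.pt (pderiv 0 (fx a)) = aeval C.pt (fx a) * S := by
    rw [hS]
    exact PPZ.H65.prod_der C.pt 0 Finset.univ a fun i _ => hx i
  have hg : aeval C.pt (pderiv 1 (gz b)) = aeval C.pt (gz b) * T := by
    rw [hT]
    exact PPZ.H65.prod_der C.pt 1 Finset.univ b fun j _ => hz j
  have p0 : C.pt 0 = C.x := rfl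
  have p1 : C.pt 1 = C.z := rfl
  have p2 : C.pt 2 = C.th := rfl
  have p3 : C.pt 3 = C.la := rfl
  unfold BC.ev
  rw [hch, p0, p1, p2, hla]
  unfold op
  simp only [map_add, map_sub, map_mul, aeval_X, hf, hg, p2, p3, map_ofNat]
  rw [← hth]
  ring

end Pool.Agent.PPE.H65
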